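import Pool.Agent.X229.RS.Ci

/-! Quotients by the semidirect products with diagonalizable groups. -/

set_option autoImplicit false
set_option linter.unusedSectionVars false

open MvPolynomial AlgebraicGeometry CategoryTheory Pool.Agent.H920R2 Pool.Agent.H519R3.RS
  Pool.Agent.Y177.Ga Pool.Agent.Y177.Dg Pool.Agent.H519R3.RE

universe u

namespace Pool.Agent.X229.RS

attribute [local instance] MvPolynomial.weightedGradedAlgebra

section eqv

variable {k : Type u} [Field k] {n m : ℕ} {Λ : Type} [AddCommGroup Λ]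
  (α : Fin n → Λ) (η : Fin m → Λ) (β : Λ) (v : Fin m → MvPolynomial (Fin n) k)

lemma ren_wh {f : MvPolynomial (Fin n) k} {d : Λ} (hf : IsWeightedHomogeneous α f d) :
    IsWeightedHomogeneous (Sum.elim α η) (rename (Sum.inl : Fin n → Fin n ⊕ Fin m) f) d := by
  rw [f.as_sum, map_sum]
  refine (weightedHomogeneousSubmodule k (Sum.elim α η) d).sum_mem fun s hs => ?_
  rw [rename_monomial, mem_weightedHomogeneousSubmodule]
  refine isWeightedHomogeneous_monomial _ _ _ ?_
  rw [← hf (mem_support_iff.1 hs), Finsupp.weight_apply, Finsupp.weight_apply]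
  exact Finsupp.sum_mapDomain_index (h := fun i c => c • Sum.elim α η i)
    (fun _ => zero_smul _ _) (fun _ _ _ => add_smul _ _ _)

variable (hv : ∀ t, IsWeightedHomogeneous α (v t) (η t + β))

include hv in
lemma ct_wh (i : Λ) (b : MvPolynomial (Fin n ⊕ Fin m) k)
    (hb : IsWeightedHomogeneous (Sum.elim α η) b i) (j : ℕ) :
    IsWeightedHomogeneous (Sum.elim α η) ((ct v b).coeff j) (i + j • β) := by
  classical
  let Q : Λ → MvPolynomial (Fin n ⊕ Fin m) k → Prop := fun i b =>
    ∀ j : ℕ, IsWeightedHomogeneous (Sum.elim α η) ((ct v b).coeff j) (i + j • β)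
  have hC : ∀ a : k, Q 0 (C a) := by
    intro a j
    have h1 : ct v (C a) = algebraMap k _ a := (ct v).commutes a
    rw [h1, Polynomial.algebraMap_apply, Polynomial.coeff_C]
    split_ifs with h
    · rw [h, zero_smul, add_zero]
      exact isWeightedHomogeneous_C _ a
    · exact isWeightedHomogeneous_zero _ _ _
  have hX : ∀ x, Q (Sum.elim α η x) (X x) := by
    rintro (x | t) j
    · rw [ct_inl, Polynomial.coeff_C]
      split_ifs with h
      · rw [h, zero_smul, add_zero]
        exact isWeightedHomogeneous_X _ _ _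
      · exact isWeightedHomogeneous_zero _ _ _
    · rw [ct_inr, Polynomial.coeff_add, Polynomial.coeff_C, Polynomial.coeff_C_mul,
        Polynomial.coeff_X]
      refine (weightedHomogeneousSubmodule k (Sum.elim α η) _).add_mem ?_ ?_
      · split_ifs with h
        · rw [h, zero_smul, add_zero]
          exact isWeightedHomogeneous_X _ _ _
        · exact isWeightedHomogeneous_zero _ _ _
      · split_ifs with h
        · rw [← h, one_smul, mul_one]
          exact ren_wh α η (hv t)
        · rw [mul_zero]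
          exact isWeightedHomogeneous_zero _ _ _
  have hM : ∀ i i' a b, Q i a → Q i' b → Q (i + i') (a * b) := by
    intro i i' a b ha hb j
    rw [map_mul, Polynomial.coeff_mul]
    refine (weightedHomogeneousSubmodule k (Sum.elim α η) _).sum_mem fun x hx => ?_
    have h1 := (ha x.1).mul (hb x.2)
    have h2 : i + x.1 • β + (i' + x.2 • β) = i + i' + j • β := by
      rw [← Finset.HasAntidiagonal.mem_antidiagonal.1 hx, add_smul]
      abel
    rw [h2] at h1
    exact h1
  have h1 : Q 0 1 := by
    have := hC 1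
    rwa [C_1] at this
  have hP : ∀ i a (e : ℕ), Q i a → Q (e • i) (a ^ e) := by
    intro i a e ha
    induction e with
    | zero => rw [zero_smul, pow_zero]; exact h1
    | succ e ih => rw [pow_succ, succ_nsmul]; exact hM _ _ _ _ ih ha
  have hmon : ∀ (s : Fin n ⊕ Fin m →₀ ℕ) (a : k), Q (Finsupp.weight (Sum.elim α η) s)
      (monomial s a) := by
    intro s a
    rw [monomial_eq, ← zero_add (Finsupp.weight (Sum.elim α η) s)]
    refine hM _ _ _ _ (hC a) ?_
    rw [Finsupp.prod_fintype _ _ (fun i => by rw [pow_zero]), Finsupp.weight_apply,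
      Finsupp.sum_fintype _ _ (fun i => by rw [zero_smul])]
    have h2 : ∀ T : Finset (Fin n ⊕ Fin m), Q (∑ x ∈ T, s x • Sum.elim α η x)
        (∏ x ∈ T, X x ^ s x) := by
      intro T
      induction T using Finset.induction_on with
      | empty => rw [Finset.sum_empty, Finset.prod_empty]; exact h1
      | insert x T hx ih =>
        rw [Finset.sum_insert hx, Finset.prod_insert hx]
        exact hM _ _ _ _ (hP _ _ _ (hX x)) ih
    exact h2 Finset.univ
  rw [b.as_sum, map_sum, Polynomial.finsetSum_coeff]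
  refine (weightedHomogeneousSubmodule k (Sum.elim α η) _).sum_mem fun s hs => ?_
  have h2 := hmon s (coeff s b) j
  rwa [hb (mem_support_iff.1 hs)] at h2

end eqv

section final

variable {k : Type u} [Field k] {n m r : ℕ} (v : Fin r → Fin m → MvPolynomial (Fin n) k)
  (p : ℕ) (s : Fin r → ℕ) (Γ : Fin r → AddSubgroup k) [hp : Fact p.Prime] [CharP k p]
  [∀ j, Fintype (Γ j)] {Λ : Type} [AddCommGroup Λ] [Fintype Λ] [DecidableEq Λ]
  (α : Fin n → Λ) (η : Fin m → Λ) (β : Fin r → Λ)

theorem final (w : Fin n → ℕ) (hw : ∃ i, 0 < w i)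
    (l : Fin r → ℕ) (hl : ∀ j, 0 < l j) (hv : ∀ j t, IsWeightedHomogeneous w (v j t) (l j))
    (hV : ∀ (K : Type u) [Field K] [Algebra k K] (z : Fin n → K), (∃ i, 0 < w i ∧ z i ≠ 0) →
      LinearIndependent K (fun j t => aeval z (v j t)))
    (hvΛ : ∀ j t, IsWeightedHomogeneous α (v j t) (η t + β j))
    (hΓ : ∀ j e, (∏ a : Γ j, (Polynomial.X - Polynomial.C (a : k))).coeff e ≠ 0 → e • β j = β j)
    (D : Subalgebra k (MvPolynomial (Fin n ⊕ Fin m) k))
    (hD : ∀ b, b ∈ D ↔ (∀ j, b ∈ frs (ct (v j)) (p ^ s j) ⊓ inv (ct (v j)) (Γ j)) ∧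
      IsWeightedHomogeneous (Sum.elim α η) b 0) :
    IsVariety (X := Spec (CommRingCat.of D))
      (Spec.map (CommRingCat.ofHom (algebraMap k D))) ∧
    HasResolution (X := Spec (CommRingCat.of D))
      (Spec.map (CommRingCat.ofHom (algebraMap k D))) := by
  obtain ⟨h1, h2⟩ := good_CI v p s Γ w hw l hl hv hV r le_rfl
  have hpg := pg_grd (weightedHomogeneousSubmodule k (Sum.elim α η))
  have hρp : ∀ j i b e, (ct (v j) (GradedAlgebra.proj
      (weightedHomogeneousSubmodule k (Sum.elim α η)) i b)).coeff e =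
      GradedAlgebra.proj (weightedHomogeneousSubmodule k (Sum.elim α η)) (i + e • β j)
        ((ct (v j) b).coeff e) := by
    intro j
    refine rho_of_hom hpg ?_
    intro i b hb e
    rw [proj_eq_iff] at hb ⊢
    exact ct_wh α η (β j) (v j) (hvΛ j) i b hb e
  refine concl_zr (isFilt_EI (xs k n m) w) h1 h2 hpg ?_ ?_ D ?_
  · intro i x hx j hj
    exact ⟨frs_stable (β j) (hρp j) i x (hx j hj).1,
      inv_stable (β j) (hρp j) (Γ j) (hΓ j) i x (hx j hj).2⟩
  · intro d c hc i
    have hh : (EI (xs k n m) w d).IsHomogeneous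
        (weightedHomogeneousSubmodule k (Sum.elim α η)) := by
      refine Ideal.homogeneous_span _ _ ?_
      rintro _ ⟨e, _, rfl⟩
      refine ⟨∑ i, e i • α i, ?_⟩
      have h3 : IsWeightedHomogeneous (Sum.elim α η) (∏ i, xs k n m i ^ e i)
          (∑ i, e i • α i) := by
        refine IsWeightedHomogeneous.prod _ _ _ fun i _ => ?_
        exact (isWeightedHomogeneous_X k (Sum.elim α η) (Sum.inl i)).pow (e i)
      exact h3
    exact hh i hc
  · intro b
    rw [hD, proj_eq_iff]
    refine and_congr ?_ Iff.rfl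
    rw [mem_CI]
    exact ⟨fun h j _ => h j, fun h j => h j j.2⟩

end final

end Pool.Agent.X229.RS
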