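import Pool.Agent.X229.RS.Ct

/-! The tower of invariants of translations by finite subgroup schemes of the additive group. -/

set_option autoImplicit false
set_option linter.unusedSectionVars false

open MvPolynomial AlgebraicGeometry CategoryTheory Pool.Agent.H920R2 Pool.Agent.H519R3.RS
  Pool.Agent.Y177.Ga Pool.Agent.H519R3.RE

universe u

namespace Pool.Agent.X229.RS

section res

variable {k B : Type u} [Field k] [CommRing B] [Algebra k B]

/-- The restriction of a coaction to a stable subalgebra. -/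
theorem exists_res (ρ : B →ₐ[k] Polynomial B) (hρ : IsAct ρ) (C : Subalgebra k B)
    (h : ∀ b ∈ C, ∀ j, (ρ b).coeff j ∈ C) :
    ∃ ρ' : C →ₐ[k] Polynomial C, IsAct ρ' ∧ (∀ (b : C) j, ((ρ' b).coeff j : B) = (ρ b).coeff j) ∧
      ∀ (a : k) (b : C), (sg ρ' a b : B) = sg ρ a b := by
  let D : ℕ → C →ₗ[k] C := fun n =>
    { toFun := fun b => ⟨(ρ b).coeff n, h b b.2 n⟩
      map_add' := fun x y => by
        apply Subtype.ext
        change (ρ ((x : B) + y)).coeff _ = _
        rw [map_add, Polynomial.coeff_add]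
        rfl
      map_smul' := fun c x => by
        apply Subtype.ext
        change (ρ (c • (x : B))).coeff _ = _
        rw [map_smul, Polynomial.coeff_smul]
        rfl }
  have hD : ∀ n (b : C), ((D n b : C) : B) = (ρ b).coeff n := fun n b => rfl
  have hHD : IsHD D := by
    refine ⟨?_, ?_, ?_, ?_, ?_⟩
    · intro b
      apply Subtype.ext
      rw [hD, hρ.zero]
    · intro n hn
      apply Subtype.ext
      rw [hD]
      change (ρ 1).coeff _ = 0
      rw [map_one, Polynomial.coeff_one, if_neg (by omega)]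
    · intro n a b
      apply Subtype.ext
      rw [hD]
      change (ρ ((a : B) * b)).coeff _ = _
      rw [map_mul, Polynomial.coeff_mul, AddSubmonoidClass.coe_finsetSum]
      rfl
    · intro b
      refine ⟨(ρ (b : B)).natDegree + 1, fun n hn => ?_⟩
      apply Subtype.ext
      rw [hD]
      exact Polynomial.coeff_eq_zero_of_natDegree_lt (by omega)
    · intro i j b
      apply Subtype.ext
      rw [hD, hD, hρ.iter]
      rfl
  refine ⟨rh hHD, isAct_rh hHD, fun b j => by rw [coeff_rh, hD], ?_⟩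
  intro a b
  have h1 : (rh hHD b).map (C.val : C →+* B) = ρ (b : B) := by
    ext n
    rw [Polynomial.coeff_map, coeff_rh]
    rfl
  rw [sg_apply, sg_apply, ← h1]
  have h2 := Polynomial.eval₂_at_apply (C.val : C →+* B) (p := rh hHD b) (algebraMap k C a)
  rw [Polynomial.eval₂_eq_eval_map] at h2
  exact h2.symm

end res

section tower

variable {k : Type u} [Field k] {n m r : ℕ} (v : Fin r → Fin m → MvPolynomial (Fin n) k)
  (p : ℕ) (s : Fin r → ℕ) (Γ : Fin r → AddSubgroup k)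

/-- The common invariants of the first group schemes. -/
noncomputable def CI (i : ℕ) : Subalgebra k (MvPolynomial (Fin n ⊕ Fin m) k) where
  carrier := {b | ∀ j : Fin r, (j : ℕ) < i → b ∈ frs (ct (v j)) (p ^ s j) ⊓ inv (ct (v j)) (Γ j)}
  mul_mem' := fun ha hb j hj => Subalgebra.mul_mem _ (ha j hj) (hb j hj)
  add_mem' := fun ha hb j hj => Subalgebra.add_mem _ (ha j hj) (hb j hj)
  algebraMap_mem' := fun a _ _ => Subalgebra.algebraMap_mem _ a

lemma mem_CI {i : ℕ} {b : MvPolynomial (Fin n ⊕ Fin m) k} : b ∈ CI v p s Γ i ↔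
    ∀ j : Fin r, (j : ℕ) < i → b ∈ frs (ct (v j)) (p ^ s j) ⊓ inv (ct (v j)) (Γ j) := Iff.rfl

lemma coeff_CI (i : ℕ) (v' : Fin m → MvPolynomial (Fin n) k)
    (b : MvPolynomial (Fin n ⊕ Fin m) k) (hb : b ∈ CI v p s Γ i) (e : ℕ) :
    (ct v' b).coeff e ∈ CI v p s Γ i := by
  intro j hj
  obtain ⟨h1, h2⟩ := hb j hj
  refine ⟨?_, ?_⟩
  · intro e' he' he'q
    rw [ct_comm, h1 e' he' he'q, map_zero, Polynomial.coeff_zero]
  · intro a ha
    have h3 := h2 a ha
    rw [sg_ct] at h3 ⊢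
    rw [← ct_tau, h3]

lemma ren_CI (i : ℕ) (f : MvPolynomial (Fin n) k) : rename Sum.inl f ∈ CI v p s Γ i := by
  intro j _
  refine ⟨?_, ?_⟩
  · intro e he _
    rw [ct_ren, Polynomial.coeff_C, if_neg (by omega)]
  · intro a _
    rw [sg_apply, ct_ren, Polynomial.eval_C]

/-- The inclusion of the polynomials in the first coordinates. -/
noncomputable def iI (i : ℕ) : MvPolynomial (Fin n) k →ₐ[k] CI v p s Γ i :=
  (rename Sum.inl).codRestrict (CI v p s Γ i) fun f => ren_CI v p s Γ i f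

lemma coe_iI (i : ℕ) (f : MvPolynomial (Fin n) k) : (iI v p s Γ i f :
    MvPolynomial (Fin n ⊕ Fin m) k) = rename Sum.inl f := rfl

lemma ct_mulY (j : Fin r) {N : ℕ} (c : Fin N → MvPolynomial (Fin n) k) (J : Fin N → Fin m) :
    ct (v j) (∑ b, rename Sum.inl (c b) * X (Sum.inr (J b))) =
      Polynomial.C (∑ b, rename Sum.inl (c b) * X (Sum.inr (J b))) +
      Polynomial.C (rename Sum.inl (∑ b, c b * v j (J b))) * Polynomial.X := by
  rw [map_sum, map_sum, map_sum, map_sum, Finset.sum_mul, ← Finset.sum_add_distrib]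
  refine Finset.sum_congr rfl fun b _ => ?_
  rw [map_mul, ct_ren, ct_inr, map_mul, map_mul, map_mul]
  ring

lemma cof_CI {i : ℕ} (hi : i < r) (J : Fin (i + 1) → Fin m) :
    (∑ b, rename Sum.inl (cof v hi J b) * X (Sum.inr (J b)) : MvPolynomial (Fin n ⊕ Fin m) k) ∈
      CI v p s Γ i := by
  intro j hj
  have h1 := ct_mulY v j (cof v hi J) J
  rw [sum_cof_lt v hi J j hj, map_zero, map_zero, zero_mul, add_zero] at h1
  refine ⟨?_, ?_⟩
  · intro e he _
    rw [h1, Polynomial.coeff_C, if_neg (by omega)]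
  · intro a _
    rw [sg_apply, h1, Polynomial.eval_C]

variable [hp : Fact p.Prime] [CharP k p] [∀ j, Finite (Γ j)]

/-- Powers of the elements of the ideals of the filtration. -/
theorem pow_EI_CI (w : Fin n → ℕ) (i : ℕ) : ∃ q, 0 < q ∧ ∀ d, ∀ a : CI v p s Γ i,
    (a : MvPolynomial (Fin n ⊕ Fin m) k) ∈ EI (xs k n m) w d →
      a ^ q ∈ EI (fun j => iI v p s Γ i (X j)) w (q * d) := by
  classical
  have hpk : (p : k) = 0 := CharP.cast_eq_zero k p
  let ε := (Finite.equivFin (Σ j, Γ j)).symm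
  let R : ℕ := Nat.card (Σ j, Γ j)
  let V : Fin R → Fin m → MvPolynomial (Fin n) k := fun x =>
    if ((ε x).1 : ℕ) < i then fun t => C ((ε x).2 : k) * v (ε x).1 t else 0
  let S : ℕ := ∑ j, s j
  refine ⟨p ^ R * p ^ S, by positivity [hp.out.pos], ?_⟩
  intro d a ha
  have haV : (a : MvPolynomial (Fin n ⊕ Fin m) k) ∈ CS V R := by
    intro x _
    by_cases hx : ((ε x).1 : ℕ) < i
    · have h1 := (a.2 (ε x).1 hx).2 _ (ε x).2.2
      rw [sg_ct] at h1
      have h2 : V x = fun t => C ((ε x).2 : k) * v (ε x).1 t := if_pos hx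
      rw [h2]
      exact h1
    · have h2 : V x = 0 := if_neg hx
      rw [h2, tau_zero]
  have h3 := pow_EI_CS V hp.out hpk w R le_rfl d ⟨a, haV⟩ ha
  obtain ⟨P, hP, hPa⟩ := exists_poly w h3
  have hPs := supp_EI w hP
  have hc : ∀ c : CS V R, (c : MvPolynomial (Fin n ⊕ Fin m) k) ^ p ^ S ∈ CI v p s Γ i := by
    intro c j hj
    refine ⟨?_, ?_⟩
    · have h4 : s j ≤ S := Finset.single_le_sum (fun _ _ => Nat.zero_le _) (Finset.mem_univ j)
      have h5 : (c : MvPolynomial (Fin n ⊕ Fin m) k) ^ p ^ S =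
          ((c : MvPolynomial (Fin n ⊕ Fin m) k) ^ p ^ (s j)) ^ p ^ (S - s j) := by
        rw [← pow_mul, ← pow_add]
        congr 2
        omega
      rw [h5]
      exact Subalgebra.pow_mem _ (pow_q_mem p (s j) _) _
    · refine Subalgebra.pow_mem _ ?_ _
      intro g hg
      let y : Σ j, Γ j := ⟨j, ⟨g, hg⟩⟩
      have h6 := c.2 (ε.symm y) (ε.symm y).2
      have h7 : V (ε.symm y) = fun t => C g * v j t := by
        change (if ((ε (ε.symm y)).1 : ℕ) < i then
          fun t => C ((ε (ε.symm y)).2 : k) * v (ε (ε.symm y)).1 t else 0) = _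
        rw [Equiv.apply_symm_apply, if_pos hj]
      rw [h7] at h6
      rw [sg_ct]
      exact h6
  have h8 : a ^ (p ^ R * p ^ S) = ∑ β ∈ P.support,
      (⟨((coeff β P : CS V R) : MvPolynomial (Fin n ⊕ Fin m) k) ^ p ^ S, hc _⟩ : CI v p s Γ i) *
      ∏ j, (iI v p s Γ i (X j)) ^ (β j * p ^ S) := by
    apply Subtype.ext
    have h9 := congrArg (fun c : CS V R => (c : MvPolynomial (Fin n ⊕ Fin m) k) ^ p ^ S) hPa
    simp only [eval_eq'] at h9
    rw [SubmonoidClass.coe_pow, pow_mul]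
    rw [SubmonoidClass.coe_pow] at h9
    refine h9.symm.trans ?_
    rw [AddSubmonoidClass.coe_finsetSum, sum_pow_char_pow, AddSubmonoidClass.coe_finsetSum]
    refine Finset.sum_congr rfl fun β _ => ?_
    change (((coeff β P : CS V R) : MvPolynomial (Fin n ⊕ Fin m) k) *
      ((∏ j, (iS V R (X j)) ^ (β j) : CS V R) : MvPolynomial (Fin n ⊕ Fin m) k)) ^ p ^ S =
      ((coeff β P : CS V R) : MvPolynomial (Fin n ⊕ Fin m) k) ^ p ^ S *
      ((∏ j, (iI v p s Γ i (X j)) ^ (β j * p ^ S) : CI v p s Γ i) :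
        MvPolynomial (Fin n ⊕ Fin m) k)
    rw [SubmonoidClass.coe_finsetProd, SubmonoidClass.coe_finsetProd, mul_pow, ← Finset.prod_pow]
    congr 1
    refine Finset.prod_congr rfl fun j _ => ?_
    rw [SubmonoidClass.coe_pow, SubmonoidClass.coe_pow, ← pow_mul]
    rfl
  rw [h8]
  refine Ideal.sum_mem _ fun β hβ => Ideal.mul_mem_left _ _ ?_
  refine mono_mem _ w _ ?_
  have h7 := hPs β hβ
  have h10 : ∑ j, β j * p ^ S * w j = (∑ j, β j * w j) * p ^ S := by
    rw [Finset.sum_mul]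
    exact Finset.sum_congr rfl fun j _ => by ring
  rw [h10]
  calc p ^ R * p ^ S * d = (p ^ R * d) * p ^ S := by ring
    _ ≤ (∑ j, β j * w j) * p ^ S := Nat.mul_le_mul_right _ h7

/-- The steps of the tower. -/
theorem gstep_CI (w : Fin n → ℕ)
    (l : Fin r → ℕ) (hl : ∀ j, 0 < l j) (hv : ∀ j t, IsWeightedHomogeneous w (v j t) (l j))
    (hV : ∀ (K : Type u) [Field K] [Algebra k K] (z : Fin n → K), (∃ i, 0 < w i ∧ z i ≠ 0) →
      LinearIndependent K (fun j t => aeval z (v j t))) (i : ℕ) (hi : i < r) :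
    GStep p (EI (xs k n m) w) (CI v p s Γ i) (CI v p s Γ (i + 1)) := by
  obtain ⟨ρ', hρ', hco, hsg⟩ := exists_res (ct (v ⟨i, hi⟩)) (isAct_ct _) (CI v p s Γ i)
    (coeff_CI v p s Γ i (v ⟨i, hi⟩))
  obtain ⟨q, hq, hpow⟩ := pow_EI_CI v p s Γ w i
  have hvE : ∀ t, v ⟨i, hi⟩ t ∈ EI (X : Fin n → MvPolynomial (Fin n) k) w (l ⟨i, hi⟩) :=
    fun t => hom_mem_EI w (hv _ t)
  let μ : ℕ := ∑ a' : Fin i, l ⟨a', by omega⟩
  have hrad : ∀ s, 0 < w s → (X s : MvPolynomial (Fin n) k) ∈ (Ideal.span (Set.range fun J :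
      Fin (i + 1) → Fin m => mnr v hi J)).radical := by
    intro s hws
    refine minors_rad w (fun (a : Fin (i + 1)) => v ⟨a, by omega⟩) ?_ s hws
    intro K _ _ z hz
    have h1 := (hV K z hz).comp (fun a : Fin (i + 1) => (⟨a, by omega⟩ : Fin r)) (by
      intro a b hab
      exact Fin.ext (congrArg (fun x : Fin r => (x : ℕ)) hab))
    exact h1
  let cJ : (Fin (i + 1) → Fin m) → CI v p s Γ i := fun J =>
    ⟨∑ b, rename Sum.inl (cof v hi J b) * X (Sum.inr (J b)), cof_CI v p s Γ hi J⟩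
  have hcF : ∀ J, cJ J ∈ restr (EI (xs k n m) w) (CI v p s Γ i) μ := by
    intro J
    change (∑ b, rename Sum.inl (cof v hi J b) * X (Sum.inr (J b))) ∈ EI (xs k n m) w μ
    refine Ideal.sum_mem _ fun b _ => Ideal.mul_mem_right _ _ ?_
    exact ren_EI w (hom_mem_EI w (hom_cof w v l hv hi J b))
  have hcJ : ∀ J, ct (v ⟨i, hi⟩) (cJ J : MvPolynomial (Fin n ⊕ Fin m) k) =
      Polynomial.C (cJ J : MvPolynomial (Fin n ⊕ Fin m) k) +
        Polynomial.C (rename Sum.inl (mnr v hi J)) * Polynomial.X := by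
    intro J
    rw [← sum_cof_eq]
    exact ct_mulY v ⟨i, hi⟩ (cof v hi J) J
  obtain ⟨h3, h4⟩ := step_core w (EI (xs k n m) w) (CI v p s Γ i) (fun c => (ρ' c).coeff 1)
    (l ⟨i, hi⟩) μ q hq (iI v p s Γ i) (fun d f hf => ren_EI w hf)
    (fun d a ha => hpow d a ha)
    (fun J : Fin (i + 1) → Fin m => mnr v hi J) (fun J => hom_mnr w v l hv hi J)
    hrad
    (fun J => by
      refine ⟨cJ J, hcF J, ?_⟩
      apply Subtype.ext
      rw [hco, hcJ, Polynomial.coeff_add, Polynomial.coeff_C, if_neg one_ne_zero, zero_add,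
        Polynomial.coeff_C_mul, Polynomial.coeff_X_one, mul_one, coe_iI])
  have h5 : ∀ a : k, a ≠ 0 → ∀ P : Ideal (CI v p s Γ i), P.IsPrime →
      (∀ b, sg ρ' a b - b ∈ P) → restr (EI (xs k n m) w) (CI v p s Γ i) 1 ≤ P := by
    intro a ha0
    refine (step_core w (EI (xs k n m) w) (CI v p s Γ i) (fun c => sg ρ' a c - c)
      (l ⟨i, hi⟩) μ q hq (iI v p s Γ i) (fun d f hf => ren_EI w hf)
      (fun d a ha => hpow d a ha)
      (fun J : Fin (i + 1) → Fin m => mnr v hi J) (fun J => hom_mnr w v l hv hi J)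
      hrad
      (fun J => ?_)).1
    refine ⟨a⁻¹ • cJ J, Submodule.smul_of_tower_mem _ _ (hcF J), ?_⟩
    have h6 : sg ρ' a (cJ J) = cJ J + a • iI v p s Γ i (mnr v hi J) := by
      apply Subtype.ext
      rw [hsg, sg_apply, hcJ]
      simp only [Polynomial.eval_add, Polynomial.eval_mul, Polynomial.eval_C, Polynomial.eval_X]
      change _ = (cJ J : MvPolynomial (Fin n ⊕ Fin m) k) + a • rename Sum.inl (mnr v hi J)
      rw [Algebra.smul_def, mul_comm]
    rw [map_smul, h6, smul_add, smul_smul, inv_mul_cancel₀ ha0, one_smul, add_sub_cancel_left]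
  refine ⟨ρ', l ⟨i, hi⟩, s ⟨i, hi⟩, Γ ⟨i, hi⟩, inferInstance, hρ', hl _, ?_, h4, fun _ => h3,
    fun a _ ha0 => h5 a ha0, ?_⟩
  · intro d b hb j
    rw [mem_restr, hco]
    exact ct_div (v ⟨i, hi⟩) w _ hvE d b hb j
  · intro b
    have key : ∀ h : b ∈ CI v p s Γ i, (⟨b, h⟩ : CI v p s Γ i) ∈
        frs ρ' (p ^ s ⟨i, hi⟩) ⊓ inv ρ' (Γ ⟨i, hi⟩) ↔
        b ∈ frs (ct (v ⟨i, hi⟩)) (p ^ s ⟨i, hi⟩) ⊓ inv (ct (v ⟨i, hi⟩)) (Γ ⟨i, hi⟩) := by
      intro h
      refine and_congr ?_ ?_
      · refine forall_congr' fun j => forall_congr' fun _ => forall_congr' fun _ => ?_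
        constructor
        · intro h7
          have h8 := congrArg Subtype.val h7
          rw [hco] at h8
          exact h8
        · intro h7
          apply Subtype.ext
          rw [hco]
          exact h7
      · refine forall_congr' fun a => forall_congr' fun _ => ?_
        constructor
        · intro h7
          have h8 := congrArg Subtype.val h7
          rw [hsg] at h8
          exact h8
        · intro h7
          apply Subtype.ext
          rw [hsg]
          exact h7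
    constructor
    · intro h
      have h1 : b ∈ CI v p s Γ i := fun j hj => h j (by omega)
      exact ⟨h1, (key h1).2 (h ⟨i, hi⟩ (Nat.lt_succ_self i))⟩
    · rintro ⟨h1, h2⟩ j hj
      rcases Nat.lt_succ_iff_lt_or_eq.1 hj with h3 | h3
      · exact h1 j h3
      · have h4 : j = ⟨i, hi⟩ := Fin.ext h3
        rw [h4]
        exact (key h1).1 h2

/-- The rings of common invariants are good. -/
theorem good_CI (w : Fin n → ℕ) (hw : ∃ i, 0 < w i)
    (l : Fin r → ℕ) (hl : ∀ j, 0 < l j) (hv : ∀ j t, IsWeightedHomogeneous w (v j t) (l j))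
    (hV : ∀ (K : Type u) [Field K] [Algebra k K] (z : Fin n → K), (∃ i, 0 < w i ∧ z i ≠ 0) →
      LinearIndependent K (fun j t => aeval z (v j t))) (i : ℕ) (hi : i ≤ r) :
    Good k (isFilt_restr (isFilt_EI (xs k n m) w) (CI v p s Γ i)) ∧
      restr (EI (xs k n m) w) (CI v p s Γ i) 1 ≠ ⊥ := by
  induction i with
  | zero =>
    refine good_top (isFilt_EI (xs k n m) w) (good_B w) (one_ne_bot w hw) ?_
    exact top_unique fun b _ j hj => absurd hj (Nat.not_lt_zero _)
  | succ i ih =>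
    obtain ⟨h1, h2⟩ := ih (by omega)
    exact good_gstep (isFilt_EI (xs k n m) w) (gstep_CI v p s Γ w l hl hv hV i (by omega)) h1 h2

end tower

end Pool.Agent.X229.RS
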