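import Pool.Agent.X229.RS.GStep
import Pool.Agent.H519R3.RE.X5
import Pool.Agent.Y177.Dg.Grd

/-! Translations of affine spaces by finite subgroup schemes of the additive group. -/

set_option autoImplicit false
set_option linter.unusedSectionVars false

open MvPolynomial AlgebraicGeometry CategoryTheory Pool.Agent.H920R2 Pool.Agent.H519R3.RS
  Pool.Agent.Y177.Ga Pool.Agent.H519R3.RE

universe u

namespace Pool.Agent.X229.RS

section swap

variable {R : Type*} [CommRing R]

lemma coeff_swap (q : Polynomial (Polynomial R)) (i j : ℕ) :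
    ((Polynomial.Bivariate.swap q).coeff i).coeff j = (q.coeff j).coeff i := by
  induction q using Polynomial.induction_on' with
  | add p q hp hq => rw [map_add, Polynomial.coeff_add, Polynomial.coeff_add, hp, hq,
      Polynomial.coeff_add, Polynomial.coeff_add]
  | monomial a f =>
    induction f using Polynomial.induction_on' with
    | add p q hp hq =>
      rw [map_add, map_add, Polynomial.coeff_add, Polynomial.coeff_add, hp, hq,
        Polynomial.coeff_add, Polynomial.coeff_add]
    | monomial b r =>
      rw [Polynomial.Bivariate.swap_monomial_monomial]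
      simp only [Polynomial.coeff_monomial]
      split_ifs <;> simp_all [Polynomial.coeff_monomial]

end swap

section ct

variable {k : Type u} [Field k] {n m : ℕ}

/-- The coaction `Y t ↦ Y t + v t * T`, where the `v t` are polynomials in the `X i`. -/
noncomputable def ct (v : Fin m → MvPolynomial (Fin n) k) :
    MvPolynomial (Fin n ⊕ Fin m) k →ₐ[k] Polynomial (MvPolynomial (Fin n ⊕ Fin m) k) :=
  aeval (Sum.elim (fun i => Polynomial.C (X (Sum.inl i)))
    fun t => Polynomial.C (X (Sum.inr t)) + Polynomial.C (rename Sum.inl (v t)) * Polynomial.X)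

variable (v : Fin m → MvPolynomial (Fin n) k)

lemma ct_inl (i : Fin n) : ct v (X (Sum.inl i)) = Polynomial.C (X (Sum.inl i)) := by
  unfold ct; rw [aeval_X]; rfl

lemma ct_inr (t : Fin m) : ct v (X (Sum.inr t)) =
    Polynomial.C (X (Sum.inr t)) + Polynomial.C (rename Sum.inl (v t)) * Polynomial.X := by
  unfold ct; rw [aeval_X]; rfl

lemma ct_ren (f : MvPolynomial (Fin n) k) :
    ct v (rename Sum.inl f) = Polynomial.C (rename Sum.inl f) := by
  have h : (ct v).comp (rename Sum.inl) =
      (Polynomial.CAlgHom : _ →ₐ[k] Polynomial (MvPolynomial (Fin n ⊕ Fin m) k)).comp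
        (rename (Sum.inl : Fin n → Fin n ⊕ Fin m)) := by
    apply MvPolynomial.algHom_ext
    intro i
    rw [AlgHom.comp_apply, AlgHom.comp_apply, rename_X, ct_inl]
    rfl
  exact congrArg (fun g : MvPolynomial (Fin n) k →ₐ[k] _ => g f) h

lemma ct_zero (b : MvPolynomial (Fin n ⊕ Fin m) k) : (ct v b).coeff 0 = b := by
  have h1 : ((Polynomial.aeval (R := MvPolynomial (Fin n ⊕ Fin m) k)
      (0 : MvPolynomial (Fin n ⊕ Fin m) k)).restrictScalars k).comp (ct v) = AlgHom.id k _ := by
    apply MvPolynomial.algHom_ext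
    intro i
    rw [AlgHom.comp_apply, AlgHom.restrictScalars_apply, AlgHom.id_apply,
      Polynomial.coe_aeval_eq_eval]
    rcases i with i | t
    · rw [ct_inl, Polynomial.eval_C]
    · rw [ct_inr]; simp
  have h2 := congrArg (fun f : MvPolynomial (Fin n ⊕ Fin m) k →ₐ[k]
    MvPolynomial (Fin n ⊕ Fin m) k => f b) h1
  simp only [AlgHom.comp_apply, AlgHom.restrictScalars_apply, AlgHom.id_apply,
    Polynomial.coe_aeval_eq_eval, ← Polynomial.coeff_zero_eq_eval_zero] at h2
  exact h2

lemma isAct_ct : IsAct (ct v) := by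
  apply isAct_of _ (ct_zero v)
  apply MvPolynomial.algHom_ext
  intro i
  rw [AlgHom.comp_apply, AlgHom.comp_apply, AlgHom.restrictScalars_apply]
  rcases i with i | t
  · rw [ct_inl, Polynomial.coe_mapAlgHom, Polynomial.map_C, Polynomial.aeval_C]
    change Polynomial.C (ct v _) = _
    rw [ct_inl]
    rfl
  · rw [ct_inr, Polynomial.coe_mapAlgHom, Polynomial.map_add, Polynomial.map_mul,
      Polynomial.map_C, Polynomial.map_C, Polynomial.map_X]
    change Polynomial.C (ct v _) + Polynomial.C (ct v _) * Polynomial.X = _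
    have e : ∀ x : MvPolynomial (Fin n ⊕ Fin m) k,
        algebraMap (MvPolynomial (Fin n ⊕ Fin m) k)
          (Polynomial (Polynomial (MvPolynomial (Fin n ⊕ Fin m) k))) x =
          Polynomial.C (Polynomial.C x) := fun x => rfl
    rw [ct_inr, ct_ren]
    simp only [map_add, map_mul, Polynomial.aeval_C, Polynomial.aeval_X, e]
    ring

lemma sg_ct (a : k) (b : MvPolynomial (Fin n ⊕ Fin m) k) :
    sg (ct v) a b = tau (fun t => C a * v t) b := by
  have h : sg (ct v) a = tau (fun t => C a * v t) := by
    apply MvPolynomial.algHom_ext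
    intro i
    rw [sg_apply]
    rcases i with i | t
    · rw [ct_inl, Polynomial.eval_C, tau_inl]
    · rw [ct_inr, tau_inr, map_mul, rename_C]
      simp only [Polynomial.eval_add, Polynomial.eval_mul, Polynomial.eval_C, Polynomial.eval_X]
      rw [mul_comm (rename Sum.inl (v t))]
      rfl
  rw [h]

lemma ct_comm (v' : Fin m → MvPolynomial (Fin n) k) (b : MvPolynomial (Fin n ⊕ Fin m) k)
    (i j : ℕ) : (ct v ((ct v' b).coeff j)).coeff i = (ct v' ((ct v b).coeff i)).coeff j := by
  have h : (Polynomial.mapAlgHom (ct v)).comp (ct v') =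
      ((Polynomial.Bivariate.swap (R := MvPolynomial (Fin n ⊕ Fin m) k)).toAlgHom.restrictScalars
        k).comp ((Polynomial.mapAlgHom (ct v')).comp (ct v)) := by
    apply MvPolynomial.algHom_ext
    intro i
    rw [AlgHom.comp_apply, AlgHom.comp_apply, AlgHom.comp_apply, AlgHom.restrictScalars_apply]
    change _ = Polynomial.Bivariate.swap _
    rcases i with i | t
    · rw [ct_inl, ct_inl, Polynomial.coe_mapAlgHom, Polynomial.coe_mapAlgHom, Polynomial.map_C,
        Polynomial.map_C]
      change Polynomial.C (ct v _) = Polynomial.Bivariate.swap (Polynomial.C (ct v' _))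
      rw [ct_inl, ct_inl, Polynomial.Bivariate.swap_C_C]
    · rw [ct_inr, ct_inr, Polynomial.coe_mapAlgHom, Polynomial.coe_mapAlgHom]
      simp only [Polynomial.map_add, Polynomial.map_mul, Polynomial.map_C, Polynomial.map_X]
      change Polynomial.C (ct v _) + Polynomial.C (ct v _) * Polynomial.X =
        Polynomial.Bivariate.swap (Polynomial.C (ct v' _) + Polynomial.C (ct v' _) * Polynomial.X)
      rw [ct_inr, ct_inr, ct_ren, ct_ren]
      simp only [map_add, map_mul, Polynomial.Bivariate.swap_C_C, Polynomial.Bivariate.swap_X,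
        Polynomial.Bivariate.swap_Y]
      ring
  have h2 := congrArg (fun f : MvPolynomial (Fin n ⊕ Fin m) k →ₐ[k]
    Polynomial (Polynomial (MvPolynomial (Fin n ⊕ Fin m) k)) => ((f b).coeff j).coeff i) h
  simp only [AlgHom.comp_apply, AlgHom.restrictScalars_apply] at h2
  rw [Polynomial.coe_mapAlgHom, Polynomial.coeff_map] at h2
  change ((ct v) ((ct v' b).coeff j)).coeff i =
    ((Polynomial.Bivariate.swap ((Polynomial.mapAlgHom (ct v')) (ct v b))).coeff j).coeff i at h2
  rw [h2, coeff_swap, Polynomial.coe_mapAlgHom, Polynomial.coeff_map]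
  rfl

lemma ct_tau (u : Fin m → MvPolynomial (Fin n) k) (b : MvPolynomial (Fin n ⊕ Fin m) k) (l : ℕ) :
    (ct v (tau u b)).coeff l = tau u ((ct v b).coeff l) := by
  have h : (ct v).comp (tau u) = (Polynomial.mapAlgHom (tau u)).comp (ct v) := by
    apply MvPolynomial.algHom_ext
    intro i
    rw [AlgHom.comp_apply, AlgHom.comp_apply]
    rcases i with i | t
    · rw [tau_inl, ct_inl, Polynomial.coe_mapAlgHom, Polynomial.map_C]
      change _ = Polynomial.C (tau u _)
      rw [tau_inl]
    · rw [tau_inr, map_add, ct_inr, ct_ren, Polynomial.coe_mapAlgHom]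
      simp only [Polynomial.map_add, Polynomial.map_mul, Polynomial.map_C, Polynomial.map_X]
      change _ = Polynomial.C (tau u _) + Polynomial.C (tau u _) * Polynomial.X
      rw [tau_inr, tau_ren, map_add]
      ring
  have h2 := congrArg (fun f : MvPolynomial (Fin n ⊕ Fin m) k →ₐ[k]
    Polynomial (MvPolynomial (Fin n ⊕ Fin m) k) => (f b).coeff l) h
  simp only [AlgHom.comp_apply] at h2
  rw [h2, Polynomial.coe_mapAlgHom, Polynomial.coeff_map]
  rfl

lemma ct_mem (w : Fin n → ℕ) (l : ℕ)
    (hv : ∀ t, v t ∈ EI (X : Fin n → MvPolynomial (Fin n) k) w l)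
    (b : MvPolynomial (Fin n ⊕ Fin m) k) : ∀ j, (ct v b).coeff j ∈ EI (xs k n m) w (j * l) := by
  have hX : ∀ i s, (ct v (X i)).coeff s ∈ EI (xs k n m) w (s * l) := by
    intro i s
    rcases i with i | t
    · rw [ct_inl, Polynomial.coeff_C]
      split_ifs with h
      · rw [h, Nat.zero_mul, EI_zero]; trivial
      · exact Ideal.zero_mem _
    · rw [ct_inr, Polynomial.coeff_add, Polynomial.coeff_C, Polynomial.coeff_C_mul,
        Polynomial.coeff_X]
      refine Ideal.add_mem _ ?_ ?_
      · split_ifs with h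
        · rw [h, Nat.zero_mul, EI_zero]; trivial
        · exact Ideal.zero_mem _
      · split_ifs with h
        · rw [← h, Nat.one_mul, mul_one]
          exact ren_EI w (hv t)
        · rw [mul_zero]; exact Ideal.zero_mem _
  induction b using MvPolynomial.induction_on with
  | C a =>
    intro j
    have h1 : ct v (C a) = algebraMap k _ a := (ct v).commutes a
    rw [h1, Polynomial.algebraMap_apply, Polynomial.coeff_C]
    split_ifs with h
    · rw [h, Nat.zero_mul, EI_zero]; trivial
    · exact Ideal.zero_mem _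
  | add p q hp hq =>
    intro j
    rw [map_add, Polynomial.coeff_add]
    exact Ideal.add_mem _ (hp j) (hq j)
  | mul_X p i hp =>
    intro j
    rw [map_mul, Polynomial.coeff_mul]
    refine Ideal.sum_mem _ fun x hx => ?_
    rw [← Finset.HasAntidiagonal.mem_antidiagonal.1 hx, Nat.add_mul]
    exact mul_mem_EI _ w (hp _) (hX _ _)

lemma ct_div (w : Fin n → ℕ) (l : ℕ)
    (hv : ∀ t, v t ∈ EI (X : Fin n → MvPolynomial (Fin n) k) w l) (d : ℕ)
    (b : MvPolynomial (Fin n ⊕ Fin m) k) (hb : b ∈ EI (xs k n m) w d) :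
    ∀ j, (ct v b).coeff j ∈ EI (xs k n m) w (d + j * l) := by
  have hb2 := hb
  unfold EI at hb2
  induction hb2 using Submodule.span_induction with
  | mem y hy =>
    intro j
    obtain ⟨α, hα, rfl⟩ := hy
    rw [mono_ren, ct_ren, Polynomial.coeff_C]
    split_ifs with h
    · rw [h, Nat.zero_mul, Nat.add_zero, ← mono_ren]
      exact hb
    · exact Ideal.zero_mem _
  | zero => intro j; rw [map_zero, Polynomial.coeff_zero]; exact Ideal.zero_mem _
  | add y z hy' hz' hy hz =>
    intro j
    rw [map_add, Polynomial.coeff_add]; exact Ideal.add_mem _ (hy hy' j) (hz hz' j)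
  | smul c y hy' hy =>
    intro j
    rw [smul_eq_mul, map_mul, Polynomial.coeff_mul]
    refine Ideal.sum_mem _ fun x hx => ?_
    have h1 := mul_mem_EI _ w (ct_mem v w l hv c x.1) (hy hy' x.2)
    have h2 : x.1 * l + (d + x.2 * l) = d + j * l := by
      rw [← Finset.HasAntidiagonal.mem_antidiagonal.1 hx]; ring
    rwa [h2] at h1

end ct

end Pool.Agent.X229.RS
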