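import Pool.Agent.Y177.Dg.Act
import Pool.Agent.H519R3.RS.Centre

/-! Towers with steps given by finite subgroup schemes of the additive group. -/

set_option autoImplicit false
set_option linter.unusedSectionVars false

open AlgebraicGeometry CategoryTheory Polynomial Pool.Agent.H920R2 Pool.Agent.H519R3.RS
  Pool.Agent.Y177.Ga

universe u

namespace Pool.Agent.X229.RS

section

variable {k B : Type u} [Field k] [CommRing B] [Algebra k B]

/-- A step of the tower given by a finite subgroup scheme `α_(p ^ r) × A` of the additive group,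
where the additive group acts by the coaction `ρ` on the upper ring `C`. -/
def GStep (p : ℕ) (F : ℕ → Ideal B) (C C' : Subalgebra k B) : Prop :=
  ∃ (ρ : C →ₐ[k] C[X]) (l r : ℕ) (A : AddSubgroup k), Finite A ∧ IsAct ρ ∧ 0 < l ∧
    (∀ d, ∀ b ∈ restr F C d, ∀ j, (ρ b).coeff j ∈ restr F C (d + j * l)) ∧
    (∀ d, 1 ≤ d → ∀ a ∈ restr F C d, ∃ N : ℕ,
      a ^ N ∈ leadI (fun c => (ρ c).coeff 1) (restr F C) l (N * d)) ∧
    (r ≠ 0 → ∀ P : Ideal C, P.IsPrime → (∀ b, (ρ b).coeff 1 ∈ P) → restr F C 1 ≤ P) ∧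
    (∀ a ∈ A, a ≠ 0 → ∀ P : Ideal C, P.IsPrime → (∀ b, sg ρ a b - b ∈ P) →
      restr F C 1 ≤ P) ∧
    ∀ b : B, b ∈ C' ↔ ∃ h : b ∈ C, (⟨b, h⟩ : C) ∈ frs ρ (p ^ r) ⊓ inv ρ A

variable [IsDomain B] {p : ℕ} [hp : Fact p.Prime] [CharP k p] {F : ℕ → Ideal B}
  (hF : IsFilt F)

theorem good_gstep {C C' : Subalgebra k B} (h : GStep p F C C')
    (hG : Good k (isFilt_restr hF C)) (hne : restr F C 1 ≠ ⊥) :
    Good k (isFilt_restr hF C') ∧ restr F C' 1 ≠ ⊥ := by
  obtain ⟨ρ, l, r, A, hA, hρ, hl, hdiv, hlead, hfix, hfixA, hmem⟩ := h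
  have _ : CharP C p := charP_of_injective_algebraMap (algebraMap k C).injective p
  obtain ⟨h1, h2⟩ := good_main p hρ (isFilt_restr hF C) hdiv hlead hl hG hne r A hfix hfixA
  have hle : C' ≤ C := fun b hb => by
    obtain ⟨h, -⟩ := (hmem b).1 hb
    exact h
  let j : C' →ₐ[k] (frs ρ (p ^ r) ⊓ inv ρ A : Subalgebra k C) :=
    (Subalgebra.inclusion hle).codRestrict _ fun x => by
      obtain ⟨h, h'⟩ := (hmem x).1 x.2
      exact h'
  have hcoe : ∀ x, (((j x : (frs ρ (p ^ r) ⊓ inv ρ A : Subalgebra k C)) : C) : B) = x :=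
    fun x => rfl
  have hinj : Function.Injective j := by
    intro x y hxy
    apply Subtype.ext
    rw [← hcoe x, ← hcoe y, hxy]
  have hsurj : Function.Surjective j := by
    rintro ⟨⟨b, hb⟩, hb'⟩
    exact ⟨⟨b, (hmem b).2 ⟨hb, hb'⟩⟩, rfl⟩
  refine ⟨good_congr (isFilt_restr (isFilt_restr hF C) _) h1 j hinj hsurj
    (isFilt_restr hF C') fun d c => Iff.rfl, ?_⟩
  obtain ⟨x, hx, hx0⟩ := Submodule.exists_mem_ne_zero_of_ne_bot h2
  obtain ⟨y, rfl⟩ := hsurj x
  intro hbot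
  have h5 : y ∈ restr F C' 1 := hx
  rw [hbot, Ideal.mem_bot] at h5
  rw [h5, map_zero] at hx0
  exact hx0 rfl

end

end Pool.Agent.X229.RS
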