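import Pool.Agent.Y177.Dg.Grd
import Mathlib.RingTheory.Smooth.Locus
import Mathlib.RingTheory.Localization.Algebra

/-! Graded rings which are smooth outside the vertex are good. -/

set_option autoImplicit false
set_option linter.unusedSectionVars false

open Pool.Agent.H920R2 Pool.Agent.H519R3.RS

universe u

namespace Pool.Agent.X229.RS

section smooth

variable {k S : Type u} [Field k] [CommRing S] [Algebra k S]

/-- Smoothness of principal localizations from a cover. -/
lemma smooth_away_of_cover [Algebra.FiniteType k S] (T : Set S)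
    (hT : ∀ t ∈ T, Algebra.Smooth k (Localization.Away t)) {f : S} (hf : f ∈ Ideal.span T) :
    Algebra.Smooth k (Localization.Away f) := by
  have _ : Algebra.FinitePresentation k S := Algebra.FinitePresentation.of_finiteType.1 inferInstance
  rw [← Algebra.basicOpen_subset_smoothLocus_iff_smooth]
  intro P hP
  by_contra hcon
  have h1 : ∀ t ∈ T, t ∈ P.asIdeal := by
    intro t ht
    by_contra h2
    have h3 := hT t ht
    rw [← Algebra.basicOpen_subset_smoothLocus_iff_smooth] at h3
    exact hcon (h3 h2)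
  have h4 : Ideal.span T ≤ P.asIdeal := Ideal.span_le.2 h1
  exact hP (h4 hf)

attribute [local instance] Polynomial.algebra Polynomial.isLocalization in
lemma smooth_away_C {b : S} (h : Algebra.Smooth k (Localization.Away b)) :
    Algebra.Smooth k (Localization.Away (Polynomial.C b : Polynomial S)) := by
  have h1 : IsLocalization ((Submonoid.powers b).map (Polynomial.C : S →+* Polynomial S))
      (Polynomial (Localization.Away b)) := inferInstance
  have h2 : (Submonoid.powers b).map (Polynomial.C : S →+* Polynomial S) =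
      Submonoid.powers (Polynomial.C b) := Submonoid.map_powers _ _
  rw [h2] at h1
  have e : Localization.Away (Polynomial.C b : Polynomial S) ≃ₐ[Polynomial S]
      Polynomial (Localization.Away b) :=
    IsLocalization.algEquiv (Submonoid.powers (Polynomial.C b : Polynomial S)) _ _
  have _ : IsScalarTower k (Polynomial S) (Polynomial (Localization.Away b)) := by
    refine IsScalarTower.of_algebraMap_eq fun r => ?_
    rw [Polynomial.algebraMap_def]
    rw [Polynomial.algebraMap_apply, Polynomial.algebraMap_apply, Polynomial.coe_mapRingHom,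
      Polynomial.map_C, ← IsScalarTower.algebraMap_apply]
  have h3 : Algebra.Smooth (Localization.Away b) (Polynomial (Localization.Away b)) :=
    ⟨inferInstance, inferInstance⟩
  have h4 : Algebra.Smooth k (Polynomial (Localization.Away b)) :=
    Algebra.Smooth.comp k (Localization.Away b) _
  exact Algebra.Smooth.of_equiv (e.restrictScalars k).symm

end smooth

section gr

variable {k B : Type u} [Field k] [CommRing B] [Algebra k B] (𝒜 : ℕ → Submodule k B)
  [GradedAlgebra 𝒜]

/-- The filtration of a graded ring. -/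
def Fg (d : ℕ) : Ideal B := Ideal.span {b | ∃ e, d ≤ e ∧ b ∈ 𝒜 e}

variable {𝒜}

lemma mem_Fg_of_mem {d e : ℕ} (h : d ≤ e) {b : B} (hb : b ∈ 𝒜 e) : b ∈ Fg 𝒜 d :=
  Ideal.subset_span ⟨e, h, hb⟩

lemma proj_of_mem {e : ℕ} {b : B} (hb : b ∈ 𝒜 e) : GradedAlgebra.proj 𝒜 e b = b := by
  rw [GradedAlgebra.proj_apply]
  exact DirectSum.decompose_of_mem_same 𝒜 hb

lemma proj_of_ne {e i : ℕ} (h : e ≠ i) {b : B} (hb : b ∈ 𝒜 e) :
    GradedAlgebra.proj 𝒜 i b = 0 := by
  rw [GradedAlgebra.proj_apply]
  exact DirectSum.decompose_of_mem_ne 𝒜 hb h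

lemma proj_mem (i : ℕ) (b : B) : GradedAlgebra.proj 𝒜 i b ∈ 𝒜 i := by
  rw [GradedAlgebra.proj_apply]
  exact SetLike.coe_mem _

lemma exists_sum (b : B) : ∃ s : Finset ℕ, (∀ i ∉ s, GradedAlgebra.proj 𝒜 i b = 0) ∧
    ∑ i ∈ s, GradedAlgebra.proj 𝒜 i b = b := by
  classical
  refine ⟨(DirectSum.decompose 𝒜 b).support, ?_, ?_⟩
  · intro i hi
    rw [DFinsupp.notMem_support_iff] at hi
    rw [GradedAlgebra.proj_apply, hi]
    rfl
  · simp only [GradedAlgebra.proj_apply]
    exact DirectSum.sum_support_decompose 𝒜 b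

lemma mem_Fg {d : ℕ} {b : B} : b ∈ Fg 𝒜 d ↔ ∀ i < d, GradedAlgebra.proj 𝒜 i b = 0 := by
  constructor
  · intro hb
    unfold Fg at hb
    induction hb using Submodule.span_induction with
    | mem y hy =>
      obtain ⟨e, he, hy⟩ := hy
      intro i hi
      exact proj_of_ne (by omega) hy
    | zero => intro i _; rw [map_zero]
    | add y z _ _ hy hz => intro i hi; rw [map_add, hy i hi, hz i hi, add_zero]
    | smul c y _ hy =>
      intro i hi
      obtain ⟨s, -, hs⟩ := exists_sum (𝒜 := 𝒜) y
      rw [smul_eq_mul, ← hs, Finset.mul_sum, map_sum]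
      refine Finset.sum_eq_zero fun j _ => ?_
      rcases lt_or_ge j d with h | h
      · rw [hy j h, mul_zero, map_zero]
      · rw [GradedAlgebra.proj_apply]
        exact DirectSum.coe_decompose_mul_of_right_mem_of_not_le 𝒜 (proj_mem j y) (by omega)
  · intro h
    obtain ⟨s, -, hs⟩ := exists_sum (𝒜 := 𝒜) b
    rw [← hs]
    refine Ideal.sum_mem _ fun i _ => ?_
    rcases lt_or_ge i d with h1 | h1
    · rw [h i h1]; exact Ideal.zero_mem _
    · exact mem_Fg_of_mem h1 (proj_mem i b)

variable (𝒜) in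
lemma isFilt_Fg : IsFilt (Fg 𝒜) := by
  refine ⟨?_, ?_, ?_⟩
  · rw [Ideal.eq_top_iff_one]
    exact mem_Fg_of_mem (Nat.zero_le _) (SetLike.one_mem_graded 𝒜)
  · intro a b hab
    apply Ideal.span_mono
    rintro y ⟨e, he, hy⟩
    exact ⟨e, hab.trans he, hy⟩
  · intro a b
    unfold Fg
    rw [Ideal.span_mul_span', Ideal.span_le]
    rintro _ ⟨y, ⟨e, he, hy⟩, z, ⟨f, hf, hz⟩, rfl⟩
    exact Ideal.subset_span ⟨e + f, Nat.add_le_add he hf, SetLike.mul_mem_graded hy hz⟩

open AddMonoidAlgebra in
variable (𝒜) in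
/-- The homomorphism which maps an element of degree `i` to its product with `T ^ i`. -/
lemma exists_gr : ∃ φ : B →ₐ[k] AddMonoidAlgebra B ℤ, ∀ i, ∀ b ∈ 𝒜 i,
    φ b = AddMonoidAlgebra.single (i : ℤ) b := by
  let f : ∀ i, 𝒜 i →ₗ[k] AddMonoidAlgebra B ℤ := fun i =>
    { toFun := fun b => AddMonoidAlgebra.single (i : ℤ) (b : B)
      map_add' := fun a b => AddMonoidAlgebra.single_add _ _ _
      map_smul' := fun r a => by
        rw [RingHom.id_apply]
        change AddMonoidAlgebra.single (i : ℤ) (r • (a : B)) = _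
        rw [AddMonoidAlgebra.smul_single] }
  let φ : (DirectSum ℕ fun i => 𝒜 i) →ₐ[k] AddMonoidAlgebra B ℤ :=
    DirectSum.toAlgebra k (fun i => 𝒜 i) f rfl (by
      intro i j a b
      change AddMonoidAlgebra.single ((i + j : ℕ) : ℤ) ((a : B) * (b : B)) =
        AddMonoidAlgebra.single (i : ℤ) (a : B) * AddMonoidAlgebra.single (j : ℤ) (b : B)
      rw [AddMonoidAlgebra.single_mul_single]
      push_cast
      rfl)
  refine ⟨φ.comp (DirectSum.decomposeAlgEquiv 𝒜).toAlgHom, ?_⟩
  intro i b hb
  change φ (DirectSum.decompose 𝒜 b) = _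
  rw [DirectSum.decompose_of_mem 𝒜 hb]
  exact DirectSum.toModule_lof k i _

end gr

end Pool.Agent.X229.RS
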