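import Pool.Agent.X229.RS.Gd

/-! Graded rings which are smooth outside the vertex are good. -/

set_option autoImplicit false
set_option linter.unusedSectionVars false

open Pool.Agent.H920R2 Pool.Agent.H519R3.RS

universe u

namespace Pool.Agent.X229.RS

section gr

variable {k B : Type u} [Field k] [CommRing B] [Algebra k B] (𝒜 : ℕ → Submodule k B)
  [GradedAlgebra 𝒜]

/-- The homomorphism which maps an element of degree `i` to its product with `T ^ i`. -/
noncomputable def gr : B →ₐ[k] AddMonoidAlgebra B ℤ := (exists_gr 𝒜).choose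

variable {𝒜}

lemma gr_of_mem {i : ℕ} {b : B} (hb : b ∈ 𝒜 i) : gr 𝒜 b = AddMonoidAlgebra.single (i : ℤ) b :=
  (exists_gr 𝒜).choose_spec i b hb

lemma coeff_gr (b : B) (e : ℤ) : (gr 𝒜 b).coeff e =
    if 0 ≤ e then GradedAlgebra.proj 𝒜 e.toNat b else 0 := by
  classical
  obtain ⟨s, hs0, hs⟩ := exists_sum (𝒜 := 𝒜) b
  conv_lhs => rw [← hs]
  rw [map_sum, AddMonoidAlgebra.coeff_sum, Finsupp.finsetSum_apply]
  have h1 : ∀ i, (gr 𝒜 (GradedAlgebra.proj 𝒜 i b)).coeff e =
      if (i : ℤ) = e then GradedAlgebra.proj 𝒜 i b else 0 := by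
    intro i
    rw [gr_of_mem (proj_mem i b), AddMonoidAlgebra.coeff_single, Finsupp.single_apply]
  simp only [h1]
  split_ifs with h
  · obtain ⟨n, rfl⟩ := Int.eq_ofNat_of_zero_le h
    rw [Int.toNat_natCast]
    by_cases hn : n ∈ s
    · rw [Finset.sum_eq_single n]
      · rw [if_pos rfl]
      · intro i _ hi
        rw [if_neg (by exact_mod_cast hi)]
      · intro h'; exact absurd hn h'
    · rw [hs0 n hn]
      refine Finset.sum_eq_zero fun i hi => ?_
      rw [if_neg]
      intro h'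
      have : i = n := by exact_mod_cast h'
      exact hn (this ▸ hi)
  · refine Finset.sum_eq_zero fun i _ => ?_
    rw [if_neg (by omega)]

variable (𝒜) in
/-- The isomorphism from the polynomial ring to the extended Rees algebra. -/
noncomputable def ps : Polynomial B →ₐ[k] AddMonoidAlgebra B ℤ :=
  Polynomial.eval₂AlgHom (gr 𝒜) (AddMonoidAlgebra.single (-1) 1) fun _ => Commute.all _ _

lemma ps_C (b : B) : ps 𝒜 (Polynomial.C b) = gr 𝒜 b := by
  unfold ps
  exact Polynomial.eval₂_C _ _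

lemma ps_X : ps 𝒜 Polynomial.X = AddMonoidAlgebra.single (-1) 1 := by
  unfold ps
  exact Polynomial.eval₂_X _ _

lemma ps_X_pow (j : ℕ) : ps 𝒜 (Polynomial.X ^ j) = AddMonoidAlgebra.single (-(j : ℤ)) 1 := by
  rw [map_pow, ps_X, AddMonoidAlgebra.single_pow, one_pow, nsmul_eq_mul, mul_neg, mul_one]

lemma ps_mono {i : ℕ} {b : B} (hb : b ∈ 𝒜 i) (j : ℕ) :
    ps 𝒜 (Polynomial.C b * Polynomial.X ^ j) = AddMonoidAlgebra.single ((i : ℤ) - j) b := by
  rw [map_mul, ps_C, gr_of_mem hb, ps_X_pow, AddMonoidAlgebra.single_mul_single, mul_one,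
    sub_eq_add_neg]

lemma coeff_ps (P : Polynomial B) (e : ℤ) : (ps 𝒜 P).coeff e =
    ∑ j ∈ P.support, (gr 𝒜 (P.coeff j)).coeff (e + j) := by
  conv_lhs => rw [P.as_sum_support_C_mul_X_pow, map_sum, AddMonoidAlgebra.coeff_sum,
    Finsupp.finsetSum_apply]
  refine Finset.sum_congr rfl fun j _ => ?_
  rw [map_mul, ps_C, ps_X_pow, mul_comm]
  have h1 : (AddMonoidAlgebra.single (-(j : ℤ)) (1 : B) * gr 𝒜 (P.coeff j)).coeff e =
      1 * (gr 𝒜 (P.coeff j)).coeff (e - -(j : ℤ)) :=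
    AddMonoidAlgebra.coeff_single_mul_eq_mul_coeff _ (by intro m' _; omega)
  rw [h1, one_mul, sub_neg_eq_add]

lemma ps_inj : Function.Injective (ps 𝒜) := by
  classical
  rw [injective_iff_map_eq_zero]
  intro P hP
  ext j
  obtain ⟨s, -, hs⟩ := exists_sum (𝒜 := 𝒜) (P.coeff j)
  rw [Polynomial.coeff_zero, ← hs]
  refine Finset.sum_eq_zero fun i _ => ?_
  have h1 : GradedAlgebra.proj 𝒜 i ((ps 𝒜 P).coeff ((i : ℤ) - j)) = 0 := by
    rw [hP]
    exact map_zero _
  rw [coeff_ps, map_sum] at h1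
  have h2 : ∀ j', GradedAlgebra.proj 𝒜 i ((gr 𝒜 (P.coeff j')).coeff ((i : ℤ) - j + j')) =
      if j' = j then GradedAlgebra.proj 𝒜 i (P.coeff j) else 0 := by
    intro j'
    rw [coeff_gr]
    split_ifs with h3 h4 h4
    · subst h4
      have h5 : ((i : ℤ) - j' + j').toNat = i := by omega
      rw [h5, proj_of_mem (proj_mem i _)]
    · exact proj_of_ne (by omega) (proj_mem _ _)
    · subst h4
      omega
    · rw [map_zero]
  simp only [h2] at h1
  rw [Finset.sum_ite_eq'] at h1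
  split_ifs at h1 with h3
  · exact h1
  · rw [Polynomial.notMem_support_iff.1 h3, map_zero]

lemma ps_range : (ps 𝒜).range = reesZ k (isFilt_Fg 𝒜) := by
  classical
  have hg : ∀ b, gr 𝒜 b ∈ reesZ k (isFilt_Fg 𝒜) := by
    intro b e
    rw [coeff_gr]
    split_ifs
    · exact mem_Fg_of_mem le_rfl (proj_mem _ _)
    · exact Ideal.zero_mem _
  have hX : (AddMonoidAlgebra.single (-1) 1 : AddMonoidAlgebra B ℤ) ∈
      reesZ k (isFilt_Fg 𝒜) := by
    intro e
    rw [AddMonoidAlgebra.coeff_single, Finsupp.single_apply]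
    split_ifs with h
    · subst h
      change (1 : B) ∈ Fg 𝒜 0
      rw [(isFilt_Fg 𝒜).zero]; trivial
    · exact Ideal.zero_mem _
  apply le_antisymm
  · rintro _ ⟨P, rfl⟩
    change ps 𝒜 P ∈ _
    rw [P.as_sum_support_C_mul_X_pow, map_sum]
    refine Subalgebra.sum_mem _ fun j _ => ?_
    rw [map_mul, ps_C, map_pow, ps_X]
    exact Subalgebra.mul_mem _ (hg _) (Subalgebra.pow_mem _ hX _)
  · intro f hf
    rw [← AddMonoidAlgebra.sum_coeff_single f, Finsupp.sum]
    refine Subalgebra.sum_mem _ fun e _ => ?_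
    have h1 : f.coeff e ∈ Fg 𝒜 e.toNat := hf e
    rw [mem_Fg] at h1
    obtain ⟨s, -, hs⟩ := exists_sum (𝒜 := 𝒜) (f.coeff e)
    have h2 : AddMonoidAlgebra.single e (f.coeff e) =
        ∑ i ∈ s, AddMonoidAlgebra.single e (GradedAlgebra.proj 𝒜 i (f.coeff e)) := by
      conv_lhs => rw [← hs]
      exact map_sum (AddMonoidAlgebra.singleAddHom e) _ _
    rw [h2]
    refine Subalgebra.sum_mem _ fun i _ => ?_
    rcases lt_or_ge i e.toNat with h3 | h3
    · rw [h1 i h3, AddMonoidAlgebra.single_zero]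
      exact Subalgebra.zero_mem _
    · refine ⟨Polynomial.C (GradedAlgebra.proj 𝒜 i (f.coeff e)) *
        Polynomial.X ^ ((i : ℤ) - e).toNat, ?_⟩
      change ps 𝒜 _ = _
      rw [ps_mono (proj_mem _ _)]
      congr 1
      omega

/-- Graded domains which are smooth outside the zeros of the elements of positive degree are
good. -/
theorem good_Fg [IsDomain B] [Algebra.FiniteType k B]
    (hsm : ∀ d, 0 < d → ∀ b ∈ 𝒜 d, b ≠ 0 → Algebra.Smooth k (Localization.Away b)) :
    Good k (isFilt_Fg 𝒜) := by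
  classical
  let e : Polynomial B ≃ₐ[k] reesZ k (isFilt_Fg 𝒜) :=
    (AlgEquiv.ofInjective (ps 𝒜) ps_inj).trans (Subalgebra.equivOfEq _ _ ps_range)
  have he : ∀ P, ((e P : reesZ k (isFilt_Fg 𝒜)) : AddMonoidAlgebra B ℤ) = ps 𝒜 P := fun P => rfl
  have hft : Algebra.FiniteType k (Polynomial B) := inferInstance
  refine ⟨Algebra.FiniteType.equiv hft e, ?_⟩
  intro d b hb hd _
  obtain ⟨s, -, hs⟩ := exists_sum (𝒜 := 𝒜) b
  have hb' := mem_Fg.1 hb
  let f : Polynomial B := ∑ i ∈ s, Polynomial.C (GradedAlgebra.proj 𝒜 i b) *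
    Polynomial.X ^ (i - d)
  have hf : e f = ⟨AddMonoidAlgebra.single (d : ℤ) b, single_mem_reesZ (isFilt_Fg 𝒜) hb⟩ := by
    apply Subtype.ext
    rw [he]
    change ps 𝒜 f = AddMonoidAlgebra.single (d : ℤ) b
    have h2 : AddMonoidAlgebra.single (d : ℤ) b =
        ∑ i ∈ s, AddMonoidAlgebra.single (d : ℤ) (GradedAlgebra.proj 𝒜 i b) := by
      conv_lhs => rw [← hs]
      exact map_sum (AddMonoidAlgebra.singleAddHom (d : ℤ)) _ _
    rw [h2, map_sum]
    refine Finset.sum_congr rfl fun i _ => ?_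
    rcases lt_or_ge i d with h3 | h3
    · rw [hb' i h3, map_zero, zero_mul, map_zero, AddMonoidAlgebra.single_zero]
    · rw [ps_mono (proj_mem _ _)]
      congr 1
      omega
  have hsf : Algebra.Smooth k (Localization.Away f) := by
    refine smooth_away_of_cover {t | ∃ i, 0 < i ∧ ∃ c ∈ 𝒜 i, c ≠ 0 ∧ t = Polynomial.C c} ?_ ?_
    · rintro _ ⟨i, hi, c, hc, hc0, rfl⟩
      exact smooth_away_C (hsm i hi c hc hc0)
    · refine Ideal.sum_mem _ fun i _ => Ideal.mul_mem_right _ _ ?_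
      by_cases h0 : GradedAlgebra.proj 𝒜 i b = 0
      · rw [h0, map_zero]; exact Ideal.zero_mem _
      · refine Ideal.subset_span ⟨i, ?_, _, proj_mem i b, h0, rfl⟩
        by_contra hi
        exact h0 (hb' i (by omega))
  let y : reesZ k (isFilt_Fg 𝒜) :=
    ⟨AddMonoidAlgebra.single (d : ℤ) b, single_mem_reesZ (isFilt_Fg 𝒜) hb⟩
  have hy : (Submonoid.powers f).map (e : Polynomial B →* reesZ k (isFilt_Fg 𝒜)) =
      Submonoid.powers y := by
    rw [Submonoid.map_powers]
    congr 1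
  exact Algebra.Smooth.of_equiv (IsLocalization.algEquivOfAlgEquiv (Localization.Away f)
    (Localization.Away y) e hy)

end gr

end Pool.Agent.X229.RS
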