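import Pool.Agent.X229.RS.Gd2

/-! Homogeneous actions of the additive group on graded rings. -/

set_option autoImplicit false
set_option linter.unusedSectionVars false

open AlgebraicGeometry CategoryTheory Polynomial Pool.Agent.H920R2 Pool.Agent.H519R3.RS
  Pool.Agent.Y177.Ga Pool.Agent.Y177.Dg

universe u

namespace Pool.Agent.X229.RS

section lead

variable {k B : Type u} [Field k] [CommRing B] [Algebra k B] {𝒜 : ℕ → Submodule k B}
  [GradedAlgebra 𝒜]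

/-- The ideal of the leading forms. -/
def LI (F : ℕ → Ideal B) (δ : B → B) (l n : ℕ) : Ideal B :=
  Ideal.span {y | ∃ e, ∃ c ∈ F e, ∃ b ∈ F (n - (e + l)), y = b * δ c}

lemma mul_LI {δ : B → B} {l m i n : ℕ} (h : n = i + m) {a z : B} (ha : a ∈ 𝒜 i)
    (hz : z ∈ LI (Fg 𝒜) δ l m) : a * z ∈ LI (Fg 𝒜) δ l n := by
  unfold LI at hz
  induction hz using Submodule.span_induction with
  | mem y hy =>
    obtain ⟨e, c, hc, b, hb, rfl⟩ := hy
    refine Ideal.subset_span ⟨e, c, hc, a * b, ?_, (mul_assoc _ _ _).symm⟩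
    refine (isFilt_Fg 𝒜).anti _ (i + (m - (e + l))) (by omega) ?_
    exact (isFilt_Fg 𝒜).mul _ _ (Ideal.mul_mem_mul (mem_Fg_of_mem le_rfl ha) hb)
  | zero => rw [mul_zero]; exact Ideal.zero_mem _
  | add y z _ _ hy hz => rw [mul_add]; exact Ideal.add_mem _ hy hz
  | smul c y _ hy =>
    rw [smul_eq_mul, mul_left_comm]
    exact Ideal.mul_mem_left _ _ hy

lemma proj_span {δ : B →ₗ[k] B} {l : ℕ} (hδ : ∀ d, ∀ b ∈ 𝒜 d, δ b ∈ 𝒜 (d + l)) {y : B}
    (hy : y ∈ Ideal.span (Set.range δ)) : ∀ n, GradedAlgebra.proj 𝒜 n y ∈ LI (Fg 𝒜) δ l n := by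
  induction hy using Submodule.span_induction with
  | mem y hy =>
    obtain ⟨c, rfl⟩ := hy
    intro n
    obtain ⟨s, -, hs⟩ := exists_sum (𝒜 := 𝒜) c
    rw [← hs, map_sum, map_sum]
    refine Ideal.sum_mem _ fun i _ => ?_
    have h1 := hδ i _ (proj_mem (𝒜 := 𝒜) i c)
    by_cases h2 : i + l = n
    · subst h2
      rw [proj_of_mem h1]
      refine Ideal.subset_span ⟨i, _, mem_Fg_of_mem le_rfl (proj_mem i c), 1, ?_,
        (one_mul _).symm⟩
      rw [Nat.sub_self, (isFilt_Fg 𝒜).zero]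
      trivial
    · rw [proj_of_ne h2 h1]
      exact Ideal.zero_mem _
  | zero => intro n; rw [map_zero]; exact Ideal.zero_mem _
  | add y z _ _ hy hz => intro n; rw [map_add]; exact Ideal.add_mem _ (hy n) (hz n)
  | smul c y _ hy =>
    intro n
    obtain ⟨s, -, hs⟩ := exists_sum (𝒜 := 𝒜) c
    rw [smul_eq_mul, ← hs, Finset.sum_mul, map_sum]
    refine Ideal.sum_mem _ fun i _ => ?_
    rw [GradedAlgebra.proj_apply]
    rcases le_or_gt i n with h | h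
    · rw [DirectSum.coe_decompose_mul_of_left_mem_of_le 𝒜 (proj_mem i c) h]
      refine mul_LI (m := n - i) (by omega) (proj_mem i c) ?_
      have h1 := hy (n - i)
      rwa [GradedAlgebra.proj_apply] at h1
    · rw [DirectSum.coe_decompose_mul_of_left_mem_of_not_le 𝒜 (proj_mem i c) (by omega)]
      exact Ideal.zero_mem _

lemma pow_sub_mem {d : ℕ} {a : B} (ha : a ∈ Fg 𝒜 d) (N : ℕ) :
    a ^ N - (GradedAlgebra.proj 𝒜 d a) ^ N ∈ Fg 𝒜 (N * d + 1) := by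
  have h0 : a - GradedAlgebra.proj 𝒜 d a ∈ Fg 𝒜 (d + 1) := by
    rw [mem_Fg] at ha ⊢
    intro i hi
    rw [map_sub]
    rcases Nat.lt_succ_iff_lt_or_eq.1 hi with h | h
    · rw [ha i h, proj_of_ne (by omega) (proj_mem d a), sub_zero]
    · rw [h, proj_of_mem (proj_mem d a), sub_self]
  have hF := isFilt_Fg 𝒜
  have hpow : ∀ N, a ^ N ∈ Fg 𝒜 (N * d) := by
    intro N
    induction N with
    | zero => rw [Nat.zero_mul, hF.zero]; trivial
    | succ N ih =>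
      rw [pow_succ, Nat.succ_mul]
      exact hF.mul _ _ (Ideal.mul_mem_mul ih ha)
  induction N with
  | zero => rw [pow_zero, pow_zero, sub_self]; exact Ideal.zero_mem _
  | succ N ih =>
    have h1 : a ^ (N + 1) - (GradedAlgebra.proj 𝒜 d a) ^ (N + 1) =
        a ^ N * (a - GradedAlgebra.proj 𝒜 d a) +
          (a ^ N - (GradedAlgebra.proj 𝒜 d a) ^ N) * GradedAlgebra.proj 𝒜 d a := by ring
    rw [h1]
    refine Ideal.add_mem _ ?_ ?_
    · have h2 := hF.mul _ _ (Ideal.mul_mem_mul (hpow N) h0)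
      exact hF.anti _ _ (by rw [Nat.succ_mul]; omega) h2
    · have h2 := hF.mul _ _ (Ideal.mul_mem_mul ih (mem_Fg_of_mem (𝒜 := 𝒜) le_rfl
        (proj_mem d a)))
      exact hF.anti _ _ (by rw [Nat.succ_mul]; omega) h2

lemma lead_of_rad {δ : B →ₗ[k] B} {l : ℕ} (hδ : ∀ d, ∀ b ∈ 𝒜 d, δ b ∈ 𝒜 (d + l))
    (hrad : ∀ d, 0 < d → ∀ b ∈ 𝒜 d, b ∈ (Ideal.span (Set.range δ)).radical) (d : ℕ)
    (hd : 1 ≤ d) (a : B) (ha : a ∈ Fg 𝒜 d) : ∃ N : ℕ, a ^ N ∈ leadI δ (Fg 𝒜) l (N * d) := by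
  obtain ⟨N, hN⟩ := hrad d hd _ (proj_mem (𝒜 := 𝒜) d a)
  refine ⟨N, ?_⟩
  have h1 := pow_sub_mem ha N
  have h2 := proj_span hδ hN (N * d)
  have h3 : (GradedAlgebra.proj 𝒜 d a) ^ N ∈ 𝒜 (N * d) := by
    have := SetLike.pow_mem_graded N (proj_mem (𝒜 := 𝒜) d a)
    rwa [smul_eq_mul] at this
  rw [proj_of_mem h3] at h2
  have h4 : a ^ N = (a ^ N - (GradedAlgebra.proj 𝒜 d a) ^ N) +
      (GradedAlgebra.proj 𝒜 d a) ^ N := by ring
  rw [h4]
  unfold leadI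
  exact Ideal.add_mem _ (Ideal.mem_sup_left h1) (Ideal.mem_sup_right h2)

end lead

section main

variable {k B : Type u} [Field k] [CommRing B] [IsDomain B] [Algebra k B]
  [Algebra.FiniteType k B] {𝒜 : ℕ → Submodule k B} [GradedAlgebra 𝒜] {Λ : Type}
  [AddCommGroup Λ] [Fintype Λ] [DecidableEq Λ] {p : ℕ} [hp : Fact p.Prime] [CharP k p]

theorem graded_main
    (hsm : ∀ d, 0 < d → ∀ b ∈ 𝒜 d, b ≠ 0 → Algebra.Smooth k (Localization.Away b))
    (hne : ∃ d, 0 < d ∧ ∃ b ∈ 𝒜 d, b ≠ 0)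
    {ρ : B →ₐ[k] B[X]} (hρ : IsAct ρ) {l : ℕ} (hl : 0 < l)
    (hρl : ∀ d, ∀ b ∈ 𝒜 d, ∀ j, (ρ b).coeff j ∈ 𝒜 (d + j * l))
    (hrad : ∀ d, 0 < d → ∀ b ∈ 𝒜 d,
      b ∈ (Ideal.span (Set.range fun c => (ρ c).coeff 1)).radical)
    (r : ℕ) (A : AddSubgroup k) [Fintype A]
    (hfixA : ∀ a ∈ A, a ≠ 0 → ∀ d, 0 < d → ∀ b ∈ 𝒜 d,
      b ∈ (Ideal.span (Set.range fun c => (ρ c).eval (algebraMap k B a) - c)).radical)
    (ℬ : Λ → Submodule k B) [GradedAlgebra ℬ]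
    (hom : ∀ d, ∀ b ∈ 𝒜 d, ∀ i, GradedAlgebra.proj ℬ i b ∈ 𝒜 d) (β : Λ)
    (hρβ : ∀ i, ∀ b ∈ ℬ i, ∀ j : ℕ, (ρ b).coeff j ∈ ℬ (i + j • β))
    (hA : ∀ j, (∏ a : A, (X - C (a : k))).coeff j ≠ 0 → j • β = β)
    (D : Subalgebra k B) (hD : ∀ b, b ∈ D ↔ b ∈ frs ρ (p ^ r) ⊓ inv ρ A ∧ b ∈ ℬ 0) :
    IsVariety (X := Spec (CommRingCat.of D))
      (Spec.map (CommRingCat.ofHom (algebraMap k D))) ∧
    HasResolution (X := Spec (CommRingCat.of D))
      (Spec.map (CommRingCat.ofHom (algebraMap k D))) := by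
  have _ : CharP B p := charP_of_injective_algebraMap (algebraMap k B).injective p
  have hG := good_Fg (𝒜 := 𝒜) hsm
  have hF := isFilt_Fg 𝒜
  have hF1 : Fg 𝒜 1 ≠ ⊥ := by
    obtain ⟨d, hd, b, hb, hb0⟩ := hne
    intro h
    have h1 := mem_Fg_of_mem (𝒜 := 𝒜) hd hb
    rw [h, Ideal.mem_bot] at h1
    exact hb0 h1
  have hle : ∀ P : Ideal B, P.IsPrime → ∀ S : Set B, (∀ x ∈ S, x ∈ P) →
      (∀ d, 0 < d → ∀ b ∈ 𝒜 d, b ∈ (Ideal.span S).radical) → Fg 𝒜 1 ≤ P := by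
    intro P hP S hS h
    unfold Fg
    rw [Ideal.span_le]
    rintro y ⟨e, he, hy⟩
    exact (hP.radical_le_iff.2 (Ideal.span_le.2 hS)) (h e he y hy)
  let δ : B →ₗ[k] B :=
    { toFun := fun c => (ρ c).coeff 1
      map_add' := fun a b => by rw [map_add, coeff_add]
      map_smul' := fun c a => by rw [map_smul, coeff_smul]; rfl }
  have hPG := pg_grd ℬ
  refine semi_main (p := p) hρ hF (l := l) ?_ ?_ hl hG hF1 r A ?_ ?_ hPG β ?_ ?_ hA D ?_
  · intro d b hb j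
    obtain ⟨s, -, hs⟩ := exists_sum (𝒜 := 𝒜) b
    have hb' := mem_Fg.1 hb
    rw [← hs, map_sum, finsetSum_coeff]
    refine Ideal.sum_mem _ fun i _ => ?_
    rcases lt_or_ge i d with h | h
    · rw [hb' i h, map_zero, coeff_zero]
      exact Ideal.zero_mem _
    · exact mem_Fg_of_mem (by omega) (hρl i _ (proj_mem i b) j)
  · intro d hd a ha
    refine lead_of_rad (δ := δ) ?_ hrad d hd a ha
    intro d b hb
    have h1 := hρl d b hb 1
    rwa [one_mul] at h1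
  · intro _ P hP hPδ
    refine hle P hP _ ?_ hrad
    rintro _ ⟨c, rfl⟩
    exact hPδ c
  · intro a ha ha0 P hP hPa
    refine hle P hP _ ?_ (hfixA a ha ha0)
    rintro _ ⟨c, rfl⟩
    have h1 := hPa c
    rw [sg_apply] at h1
    exact h1
  · refine rho_of_hom hPG ?_
    intro i b hb e
    rw [proj_eq_iff] at hb ⊢
    exact hρβ i b hb e
  · intro d c hc i
    obtain ⟨s, -, hs⟩ := exists_sum (𝒜 := 𝒜) c
    have hc' := mem_Fg.1 hc
    rw [← hs, map_sum]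
    refine Ideal.sum_mem _ fun j _ => ?_
    rcases lt_or_ge j d with h | h
    · rw [hc' j h, map_zero]
      exact Ideal.zero_mem _
    · exact mem_Fg_of_mem h (hom j _ (proj_mem j c) i)
  · intro b
    rw [hD, proj_eq_iff]

end main

end Pool.Agent.X229.RS
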